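import Pool.Agent.MP_71ac24_nt.H17R.Main

set_option autoImplicit false

namespace Pool.Agent.Results.MP_71ac24_nt.DoubleSumSaving

/-- A large values estimate of Jutila's type with a smaller last term: for every `k ≥ 1`, the sum of the squares of a
Dirichlet polynomial of length `N` with coefficients bounded by one over a 1-separated set of `R` points of `[0, T]` is at
most `C (N + T) ^ ε (N + R N ^ (1/2) + T ^ (1/2) R ^ (1 - 1/(2k)) +
N ^ (1/2) T ^ (1/(4k)) R ^ (1 - (2k+1)/(4k(k+1)))) N`. -/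
theorem result :
    ∀ k : ℕ, 1 ≤ k → ∀ ε : ℝ, 0 < ε → ∃ C : ℝ, 0 < C ∧
      ∀ N : ℕ, 1 ≤ N → ∀ T : ℝ, 0 ≤ T →
        ∀ a : ℕ → ℂ, (∀ n, ‖a n‖ ≤ 1) →
          ∀ S : Finset ℝ, (∀ t ∈ S, 0 ≤ t ∧ t ≤ T) →
            (∀ t ∈ S, ∀ u ∈ S, t ≠ u → 1 ≤ |t - u|) →
              ∑ t ∈ S, ‖∑ n ∈ Finset.Icc 1 N,
                a n * Complex.exp (Complex.I * (t : ℂ) * (Real.log (n : ℝ) : ℂ))‖ ^ 2 ≤
                C * ((N : ℝ) + T) ^ ε *
                  ((N : ℝ) + (S.card : ℝ) * (N : ℝ) ^ (1 / 2 : ℝ) +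
                    T ^ (1 / 2 : ℝ) * (S.card : ℝ) ^ (1 - 1 / (2 * (k : ℝ))) +
                    (N : ℝ) ^ (1 / 2 : ℝ) * T ^ (1 / (4 * (k : ℝ))) *
                      (S.card : ℝ) ^ (1 - (2 * (k : ℝ) + 1) / (4 * (k : ℝ) * ((k : ℝ) + 1)))) *
                  (N : ℝ) := by
  intro k hk ε hε
  obtain ⟨C, hC, H⟩ := Pool.Agent.MP_71ac24_nt.H17R.top2 hk ε hε
  refine ⟨C, hC, fun N hN T hT a ha S hr hS => ?_⟩
  simpa only [Pool.Agent.MP_71ac24_nt.H14.ei, Complex.ofReal_mul, mul_assoc,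
    Pool.Agent.MP_71ac24_nt.H17R.FF] using H N T S a hN hT hS hr ha

end Pool.Agent.Results.MP_71ac24_nt.DoubleSumSaving
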