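import Pool.Agent.MP_71ac24_nt.H54.Top

set_option autoImplicit false

namespace Pool.Agent.Results.MP_71ac24_nt.ExplicitSaving

/-- A large values estimate for Dirichlet polynomials with an explicit power saving over the bound of Guth and
Maynard: a Dirichlet polynomial of length `N` with coefficients bounded by one has size at least `V` at no more than
`C N ^ ε (N ^ 2 / V ^ 2 + T ^ (1/2) N ^ 3 / V ^ 4 + T N ^ (19/8) / V ^ 4 + T N ^ 2 / V ^ (7/2))` points of a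
1-separated subset of `[0, T]`. -/
theorem result :
    ∀ ε : ℝ, 0 < ε → ∃ C : ℝ, 0 < C ∧
      ∀ N : ℕ, 1 ≤ N → ∀ T : ℝ, 0 ≤ T → ∀ V : ℝ, 0 < V →
        ∀ a : ℕ → ℂ, (∀ n, ‖a n‖ ≤ 1) →
          ∀ S : Finset ℝ, (∀ t ∈ S, 0 ≤ t ∧ t ≤ T) →
            (∀ t ∈ S, ∀ u ∈ S, t ≠ u → 1 ≤ |t - u|) →
            (∀ t ∈ S, V ≤ ‖∑ n ∈ Finset.Icc 1 N,
              a n * Complex.exp (Complex.I * (t : ℂ) * (Real.log (n : ℝ) : ℂ))‖) →
              (S.card : ℝ) ≤ C * (N : ℝ) ^ ε *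
                ((N : ℝ) ^ 2 / V ^ 2 + T ^ (1 / 2 : ℝ) * (N : ℝ) ^ 3 / V ^ 4 +
                  T * (N : ℝ) ^ (19 / 8 : ℝ) / V ^ 4 + T * (N : ℝ) ^ 2 / V ^ (7 / 2 : ℝ)) := by
  intro ε hε
  obtain ⟨C, hC, H⟩ := Pool.Agent.MP_71ac24_nt.H54.topB ε hε
  refine ⟨C, hC, fun N hN T hT V hV a ha S hr hS hD => ?_⟩
  refine H N T V S a hN hT hV hS hr ha fun t ht => ?_
  simpa only [Pool.Agent.MP_71ac24_nt.H14.ei, Complex.ofReal_mul, mul_assoc] using hD t ht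

end Pool.Agent.Results.MP_71ac24_nt.ExplicitSaving
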