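import Pool.Agent.MP_71ac24_nt.H14.Top

set_option autoImplicit false

namespace Pool.Agent.Results.MP_71ac24_nt.SqrtBarrier

/-- There is an absolute `c > 0` such that the square sum of a Dirichlet polynomial of length `N` over a
1-separated set `S ⊆ [0, T]` is at most `C N ^ ε (N + T / N ^ c + |S| N ^ (1/2 - c)) N`. In particular
Montgomery's bound holds when `T ≤ N ^ (1 + c)` and `|S| ≤ N ^ (1/2 + c)`. -/
theorem result :
    ∃ c : ℝ, 0 < c ∧ ∀ ε : ℝ, 0 < ε → ∃ C : ℝ, 0 < C ∧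
      ∀ N : ℕ, 1 ≤ N → ∀ T : ℝ, 0 ≤ T →
        ∀ a : ℕ → ℂ, (∀ n, ‖a n‖ ≤ 1) →
          ∀ S : Finset ℝ, (∀ t ∈ S, 0 ≤ t ∧ t ≤ T) →
            (∀ t ∈ S, ∀ u ∈ S, t ≠ u → 1 ≤ |t - u|) →
              ∑ t ∈ S, ‖∑ n ∈ Finset.Icc 1 N,
                  a n * Complex.exp (Complex.I * (t : ℂ) * (Real.log (n : ℝ) : ℂ))‖ ^ 2
                ≤ C * (N : ℝ) ^ ε *
                  ((N : ℝ) + T / (N : ℝ) ^ c + (S.card : ℝ) * (N : ℝ) ^ (1 / 2 - c)) * (N : ℝ) := by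
  obtain ⟨c, hc, H⟩ := Pool.Agent.MP_71ac24_nt.H14.general
  refine ⟨c, hc, fun ε hε => ?_⟩
  obtain ⟨C, hC, H⟩ := H ε hε
  refine ⟨C, hC, fun N hN T hT a ha S hr hS => ?_⟩
  have := H N hN T hT a ha S hS hr
  simpa only [Pool.Agent.MP_71ac24_nt.H14.ei, Complex.ofReal_mul, mul_assoc] using this

end Pool.Agent.Results.MP_71ac24_nt.SqrtBarrier
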