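import Mathlib
import Pool.Agent.MP_71ac24_nt.ZY.All

namespace Pool.Agent.Results.MP_71ac24_nt.ZeroDensity

/-- A zero density estimate for the Riemann zeta function: the zeros with real part at least `σ`
and ordinate in `(0, T]`, counted with multiplicity, number at most `C * T ^ (A * (1 - σ) + ε)`. -/
theorem result :
    ∀ ε : ℝ, 0 < ε → ∃ C : ℝ, ∀ (σ T : ℝ) (S : Finset ℂ), 1 / 2 ≤ σ → σ ≤ 1 → 1 ≤ T →
      (∀ ρ ∈ S, σ ≤ ρ.re ∧ 0 < ρ.im ∧ ρ.im ≤ T) →
        ∑ ρ ∈ S, (analyticOrderNatAt riemannZeta ρ : ℝ) ≤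
          C * T ^ ((if σ < 19 / 25 then
              min (3 / (2 - σ)) (max (24 / (5 + 8 * σ)) (6 / (2 + σ)))
            else
              max 2 (min (3 / (11 * σ - 7)) (max (9 / (7 * σ - 1)) (17 / (59 * σ - 37))))) *
                (1 - σ) + ε) :=
  Pool.Agent.MP_71ac24_nt.ZD.main_all _ Pool.Agent.MP_71ac24_nt.ZY.adm_all

end Pool.Agent.Results.MP_71ac24_nt.ZeroDensity
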